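import Pool.Agent.W34.LG.E

set_option autoImplicit false

namespace Pool.Agent.W34.LG

open Finset Pool.Agent.W246.LG

open Classical in
theorem main : S_core_task := by
  intro hexp hbonf hmain hes hgraph hdep hdsum
  intro p _ w B y o h R a T Sm η W qs σ k v hw0 hw1 hR hh hBk ha haa htp hTm hTs hT0 hη hSm hrel
    hdepc hqs hW hW1 hσ1 hqs0 hqs2 hDq hη0
  obtain ⟨hI0, hImono, hIrel, hInot, hDmono, h6, h7⟩ :=
    hdep (ZMod p) B y o h (2 * R + 2) T Sm hTm hTs hSm
  have hRpos : 1 ≤ R := by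
    obtain ⟨m, hm⟩ := hR
    omega
  have hexpand : ∀ S ⊆ B, ∀ V ⊆ S,
      (∀ b ∈ V, ¬ (∃ m : ZMod p → ℤ, (∀ b ∈ S, |m b| ≤ (h : ℤ)) ∧
        ∑ b ∈ S, m b • y b ∈ T 0 ∧ ¬ ((o b : ℤ) ∣ m b))) →
      ∑ c, w c * ∏ b ∈ S, tp p h a 1 (c * y b - v) = ∑ c, w c * ∏ b ∈ S,
        (if b ∈ V then tp p h a (o b) (c * y b - v) else tp p h a 1 (c * y b - v)) := by
    intro S _ V _ hnt
    have := E_expand hexp p w (T 0) h a ha y o v hT0 S V (by
      intro m hm hs b _ hbV
      by_contra hcon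
      exact hnt b hbV ⟨m, hm, hs, hcon⟩)
    convert this
  have hmn : (0 : ℝ) ≤ (2 * h + 1) * η := by positivity
  have key := abs_main hbonf hmain hgraph hdsum w hw0 hw1
    (fun b c => tp p h a 1 (c * y b - v)) (fun b c => tp p h a (o b) (c * y b - v))
    (fun b => tp p h a (o b) (-v)) ((2 * h + 1) * η) qs W σ hmn hqs0
    (fun b c => htp _ _) (fun b c => htp _ _) (fun b => htp _ _) B hqs hqs2 hW hW1 hσ1
    (fun b hb => E_diff p w hw0 h a ha haa htp Sm η hη0 hη (y b) (o b) (hSm b hb) v)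
    (fun S b => ∃ m : ZMod p → ℤ, (∀ b ∈ S, |m b| ≤ (h : ℤ)) ∧
        ∑ b ∈ S, m b • y b ∈ T 0 ∧ ¬ ((o b : ℤ) ∣ m b))
    (Ind B y o h (2 * R + 2) T) (dep B y o h (T (2 * R + 2))) R k hR hBk hDq
    (by intro S hS V hV hnt; convert hexpand S hS V hV hnt)
    hI0 hImono (fun S hS => hS.1)
    (by
      intro S hS b hb hnt
      obtain ⟨m, hm, hs, hd⟩ := hnt
      exact hd (hIrel S hS m hm hs b hb))
    (by
      intro S hS hn
      obtain ⟨x, hx, hx2⟩ := hInot S hS hn
      exact ⟨x, hx, by convert hx2⟩)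
    hDmono
    (fun S => by
      intro x hx
      unfold dep at hx
      exact (mem_filter.mp hx).1)
    hdepc
    (by
      intro S hS x hx hxS hc hn
      exact h6 S hS x hx hxS (by omega) (by convert hn))
    (by
      intro S hS x hx hxS hc s hs
      have := h7 S hS x hx hxS (by omega)
        (S.filter (fun s => ∃ m : ZMod p → ℤ, (∀ b ∈ insert x S, |m b| ≤ (h : ℤ)) ∧
        ∑ b ∈ insert x S, m b • y b ∈ T 0 ∧ ¬ ((o s : ℤ) ∣ m s))) (filter_subset _ _)
        (by
          intro s hs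
          rw [mem_filter]
          constructor
          · intro h'; convert h'.2
          · intro h'; exact ⟨hs, by convert h'⟩)
        s (by convert hs)
      convert this)
    (by
      intro x hx hnt
      obtain ⟨m, hm, hs, hd⟩ := hnt
      rw [sum_singleton] at hs
      exact hd (hrel x hx (m x) (hm x (mem_singleton_self x)) (hTm 0 _ (Nat.zero_le _) hs)))
  have hnum := numeric R k h W σ qs
    (∑ s ∈ B, ∑ x ∈ (dep B y o h (T (2 * R + 2)) {s}).erase s,
          ∑ c, w c * (tp p h a 1 (c * y s - v) * tp p h a 1 (c * y x - v)))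
    η (∑ S ∈ B.powerset.filter (fun S => S.card < 2 * R), ∏ b ∈ S, tp p h a (o b) (-v))
    ((2 * h + 1) * η) hRpos hh hW1 hσ1 hqs0 hqs2 hη0
    (sum_nonneg fun s _ => sum_nonneg fun x _ => sum_nonneg fun c _ =>
      mul_nonneg (hw0 c) (mul_nonneg (htp _ _).1 (htp _ _).1))
    (sum_nonneg fun S _ => prod_nonneg fun b _ => (htp _ _).1)
    (weight_small hes B _ W (fun b _ => (htp _ _).1) hW hW1 (2 * R)) rfl
  refine le_trans ?_ key
  have hnum2 := sub_le_sub_left hnum (Real.exp (-2 * W) - W ^ (R + 1) / (R + 1).factorial)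
  refine le_trans hnum2 (le_of_eq ?_)
  congr!

end Pool.Agent.W34.LG
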