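import Pool.Agent.W246.LG.Defs

set_option autoImplicit false

namespace Pool.Agent.W34.LG

open Finset Pool.Agent.W246.LG

/-- `tp` is the complex sum -/
theorem tp_coe (p h : ℕ) [NeZero p] (a : ℤ → ℝ) (ha : ∀ j : ℤ, a (-j) = a j) (o : ℕ)
    (x : ZMod p) :
    (tp p h a o x : ℂ) = ∑ j ∈ (Icc (-(h : ℤ)) (h : ℤ)).filter (fun j => (o : ℤ) ∣ j),
      (a j : ℂ) * ZMod.stdAddChar (j • x) := by
  unfold tp
  rw [← Complex.conj_eq_iff_re, map_sum]
  refine Finset.sum_nbij' (fun j => -j) (fun j => -j) ?_ ?_ ?_ ?_ ?_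
  · intro j hj
    simp only [mem_filter, mem_Icc] at hj ⊢
    refine ⟨⟨by omega, by omega⟩, ?_⟩
    exact (dvd_neg).mpr hj.2
  · intro j hj
    simp only [mem_filter, mem_Icc] at hj ⊢
    refine ⟨⟨by omega, by omega⟩, ?_⟩
    exact (dvd_neg).mpr hj.2
  · intro j _; simp
  · intro j _; simp
  · intro j _
    rw [map_mul, Complex.conj_ofReal, ha, ← AddChar.map_neg_eq_conj, neg_smul]

theorem tp_zero (p h : ℕ) [NeZero p] (a : ℤ → ℝ) (x : ZMod p) :
    tp p h a 0 x = a 0 := by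
  unfold tp
  have : (Icc (-(h : ℤ)) (h : ℤ)).filter (fun j => ((0 : ℕ) : ℤ) ∣ j) = {0} := by
    ext j
    simp only [mem_filter, mem_Icc, Nat.cast_zero, zero_dvd_iff, mem_singleton]
    constructor
    · intro hj; exact hj.2
    · intro hj; subst hj; exact ⟨⟨by omega, by omega⟩, rfl⟩
  rw [this]
  simp

theorem prod_diff {ι : Type} (S : Finset ι) (u v : ι → ℝ) (hu : ∀ i, 0 ≤ u i ∧ u i ≤ 1)
    (hv : ∀ i, 0 ≤ v i ∧ v i ≤ 1) :
    |∏ i ∈ S, u i - ∏ i ∈ S, v i| ≤ ∑ i ∈ S, |u i - v i| := by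
  classical
  induction S using Finset.induction_on with
  | empty => simp
  | insert x S hx ih =>
    rw [prod_insert hx, prod_insert hx, sum_insert hx]
    have h1 : u x * ∏ i ∈ S, u i - v x * ∏ i ∈ S, v i =
        (u x - v x) * ∏ i ∈ S, u i + v x * (∏ i ∈ S, u i - ∏ i ∈ S, v i) := by ring
    rw [h1]
    have h2 : |∏ i ∈ S, u i| ≤ 1 := by
      rw [abs_of_nonneg (prod_nonneg fun i _ => (hu i).1)]
      exact prod_le_one (fun i _ => (hu i).1) (fun i _ => (hu i).2)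
    have h3 : |v x| ≤ 1 := by
      rw [abs_of_nonneg (hv x).1]; exact (hv x).2
    calc |(u x - v x) * ∏ i ∈ S, u i + v x * (∏ i ∈ S, u i - ∏ i ∈ S, v i)|
        ≤ |(u x - v x) * ∏ i ∈ S, u i| + |v x * (∏ i ∈ S, u i - ∏ i ∈ S, v i)| := abs_add_le _ _
      _ = |u x - v x| * |∏ i ∈ S, u i| + |v x| * |∏ i ∈ S, u i - ∏ i ∈ S, v i| := by
          rw [abs_mul, abs_mul]
      _ ≤ |u x - v x| * 1 + 1 * |∏ i ∈ S, u i - ∏ i ∈ S, v i| := by
          gcongr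
      _ ≤ |u x - v x| + ∑ i ∈ S, |u i - v i| := by linarith

/-- the sum attached to one element -/
theorem tp_sum (p h : ℕ) [NeZero p] (a : ℤ → ℝ) (ha : ∀ j : ℤ, a (-j) = a j) (o : ℕ)
    (x v : ZMod p) :
    ∑ j ∈ Icc (-(h : ℤ)) (h : ℤ),
      (if (o : ℤ) ∣ j then (a j : ℂ) * ZMod.stdAddChar (-(j • v)) else 0) *
        ZMod.stdAddChar (j • x) = (tp p h a o (x - v) : ℂ) := by
  rw [tp_coe p h a ha, sum_filter]
  apply sum_congr rfl
  intro j _
  split_ifs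
  · have : j • (x - v) = -(j • v) + j • x := by rw [smul_sub]; ring
    rw [this, AddChar.map_add_eq_mul]
    ring
  · ring

theorem E_expand (hexp : S_expand) (p : ℕ) [Fact p.Prime] (w : ZMod p → ℝ) (T0 : Set (ZMod p))
    (h : ℕ) (a : ℤ → ℝ) (ha : ∀ j : ℤ, a (-j) = a j)
    (y : ZMod p → ZMod p) (o : ZMod p → ℕ) (v : ZMod p)
    (hT : ∀ g, g ∉ T0 → ∑ c, (w c : ℂ) * ZMod.stdAddChar (c * g) = 0)
    (S V : Finset (ZMod p))
    (hrel : ∀ m : ZMod p → ℤ, (∀ b ∈ S, |m b| ≤ (h : ℤ)) → ∑ b ∈ S, m b • y b ∈ T0 →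
      ∀ b ∈ S, b ∈ V → (o b : ℤ) ∣ m b) :
    ∑ c, w c * ∏ b ∈ S, tp p h a 1 (c * y b - v) =
      ∑ c, w c * ∏ b ∈ S, (if b ∈ V then tp p h a (o b) (c * y b - v)
        else tp p h a 1 (c * y b - v)) := by
  have key := hexp p w T0 hT S y h
    (fun _ j => (a j : ℂ) * ZMod.stdAddChar (-(j • v)))
    (fun b j => if b ∈ V then (if (o b : ℤ) ∣ j then (a j : ℂ) * ZMod.stdAddChar (-(j • v)) else 0)
      else (a j : ℂ) * ZMod.stdAddChar (-(j • v)))
    (by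
      intro m hm hs b hb
      by_cases hV : b ∈ V
      · simp [hV, hrel m hm hs b hb hV]
      · simp [hV])
  apply Complex.ofReal_injective
  push_cast
  have h1 : ∀ (x : ZMod p), ∑ j ∈ Icc (-(h : ℤ)) (h : ℤ),
      (a j : ℂ) * ZMod.stdAddChar (-(j • v)) * ZMod.stdAddChar (j • x) =
        (tp p h a 1 (x - v) : ℂ) := by
    intro x
    rw [← tp_sum p h a ha 1 x v]
    apply sum_congr rfl
    intro j _
    simp
  have hL : ∀ c : ZMod p, ∏ b ∈ S, (tp p h a 1 (c * y b - v) : ℂ) =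
      ∏ b ∈ S, ∑ j ∈ Icc (-(h : ℤ)) (h : ℤ),
        (a j : ℂ) * ZMod.stdAddChar (-(j • v)) * ZMod.stdAddChar (j • (c * y b)) := by
    intro c
    apply prod_congr rfl
    intro b _
    rw [h1]
  have hR : ∀ c : ZMod p, ∏ b ∈ S, ((if b ∈ V then tp p h a (o b) (c * y b - v)
        else tp p h a 1 (c * y b - v) : ℝ) : ℂ) =
      ∏ b ∈ S, ∑ j ∈ Icc (-(h : ℤ)) (h : ℤ),
        (if b ∈ V then (if (o b : ℤ) ∣ j then (a j : ℂ) * ZMod.stdAddChar (-(j • v)) else 0)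
      else (a j : ℂ) * ZMod.stdAddChar (-(j • v))) * ZMod.stdAddChar (j • (c * y b)) := by
    intro c
    apply prod_congr rfl
    intro b _
    by_cases hV : b ∈ V
    · simp only [hV, if_true]
      rw [tp_sum p h a ha]
    · simp only [hV, if_false]
      rw [h1]
  calc _ = ∑ c, (w c : ℂ) * ∏ b ∈ S, ∑ j ∈ Icc (-(h : ℤ)) (h : ℤ),
        (a j : ℂ) * ZMod.stdAddChar (-(j • v)) * ZMod.stdAddChar (j • (c * y b)) := by
        apply sum_congr rfl
        intro c _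
        rw [hL c]
    _ = _ := key
    _ = _ := by
        apply sum_congr rfl
        intro c _
        rw [← hR c]

theorem E_diff (p : ℕ) [Fact p.Prime] (w : ZMod p → ℝ) (hw0 : ∀ c, 0 ≤ w c)
    (h : ℕ) (a : ℤ → ℝ) (ha : ∀ j : ℤ, a (-j) = a j) (haa : ∀ j : ℤ, |a j| ≤ a 0)
    (htp : ∀ (o' : ℕ) (x : ZMod p), 0 ≤ tp p h a o' x ∧ tp p h a o' x ≤ 1)
    (Sm : Set (ZMod p)) (η : ℝ) (hη0 : 0 ≤ η)
    (hη : ∀ g ∈ Sm, ∑ c, w c * ‖(ZMod.stdAddChar (c * g) : ℂ) - 1‖ ≤ η)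
    (y : ZMod p) (o : ℕ) (hSm : ∀ j : ℤ, |j| ≤ (h : ℤ) → (o : ℤ) ∣ j → j • y ∈ Sm)
    (v : ZMod p) :
    ∑ c, w c * |tp p h a o (c * y - v) - tp p h a o (-v)| ≤ (2 * h + 1) * η := by
  have ha0 : a 0 ≤ 1 := by
    have := (htp 0 0).2
    rwa [tp_zero] at this
  set J := (Icc (-(h : ℤ)) (h : ℤ)).filter (fun j => (o : ℤ) ∣ j) with hJ
  have h1 : ∀ c : ZMod p, |tp p h a o (c * y - v) - tp p h a o (-v)| ≤
      ∑ j ∈ J, ‖(ZMod.stdAddChar (c * (j • y)) : ℂ) - 1‖ := by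
    intro c
    have e1 : |tp p h a o (c * y - v) - tp p h a o (-v)| =
        ‖(tp p h a o (c * y - v) : ℂ) - (tp p h a o (-v) : ℂ)‖ := by
      rw [← Complex.ofReal_sub, Complex.norm_real, Real.norm_eq_abs]
    rw [e1, tp_coe p h a ha, tp_coe p h a ha, ← hJ, ← sum_sub_distrib]
    refine (norm_sum_le _ _).trans (sum_le_sum ?_)
    intro j _
    have e2 : (a j : ℂ) * ZMod.stdAddChar (j • (c * y - v)) - (a j : ℂ) * ZMod.stdAddChar (j • (-v))
        = (a j : ℂ) * ZMod.stdAddChar (j • (-v)) * ((ZMod.stdAddChar (c * (j • y)) : ℂ) - 1) := by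
      have : j • (c * y - v) = j • (-v) + c * (j • y) := by
        simp only [zsmul_eq_mul]; ring
      rw [this, AddChar.map_add_eq_mul]
      ring
    rw [e2, norm_mul, norm_mul, Complex.norm_real, Real.norm_eq_abs, AddChar.norm_apply, mul_one]
    calc |a j| * ‖(ZMod.stdAddChar (c * (j • y)) : ℂ) - 1‖
        ≤ 1 * ‖(ZMod.stdAddChar (c * (j • y)) : ℂ) - 1‖ := by
          gcongr
          exact (haa j).trans ha0
      _ = _ := one_mul _
  calc ∑ c, w c * |tp p h a o (c * y - v) - tp p h a o (-v)|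
      ≤ ∑ c, w c * ∑ j ∈ J, ‖(ZMod.stdAddChar (c * (j • y)) : ℂ) - 1‖ := by
        apply sum_le_sum
        intro c _
        exact mul_le_mul_of_nonneg_left (h1 c) (hw0 c)
    _ = ∑ j ∈ J, ∑ c, w c * ‖(ZMod.stdAddChar (c * (j • y)) : ℂ) - 1‖ := by
        simp_rw [mul_sum]
        rw [sum_comm]
    _ ≤ ∑ j ∈ J, η := by
        apply sum_le_sum
        intro j hj
        apply hη
        rw [hJ, mem_filter, mem_Icc] at hj
        exact hSm j (abs_le.mpr ⟨hj.1.1, hj.1.2⟩) hj.2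
    _ = (J.card : ℝ) * η := by rw [sum_const, nsmul_eq_mul]
    _ ≤ (2 * h + 1) * η := by
        have hc : J.card ≤ 2 * h + 1 := by
          refine (card_filter_le _ _).trans ?_
          rw [Int.card_Icc]
          omega
        have hc' : (J.card : ℝ) ≤ 2 * h + 1 := by exact_mod_cast hc
        exact mul_le_mul_of_nonneg_right hc' hη0

end Pool.Agent.W34.LG
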