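import Pool.Agent.W246.LG.Defs

set_option autoImplicit false

namespace Pool.Agent.W34.LG

open Finset Pool.Agent.W246.LG

theorem reindex {G : Type} [DecidableEq G] (B : Finset G) (n : ℕ) (H : Finset G → G → ℝ)
    (hH : ∀ S s, 0 ≤ H S s) :
    ∑ S ∈ B.powerset.filter (fun S => S.card < n), ∑ s ∈ S, H (S.erase s) s ≤
      ∑ S ∈ B.powerset.filter (fun S => S.card < n), ∑ s ∈ B, H S s := by
  rw [sum_sigma', ← sum_product' (f := H)]
  set A := (B.powerset.filter (fun S => S.card < n)).sigma (fun S => S) with hA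
  have hinj : Set.InjOn (fun x : (_ : Finset G) × G => (x.1.erase x.2, x.2)) (A : Set _) := by
    rintro ⟨S, s⟩ h1 ⟨S', s'⟩ h2 h
    simp only [Prod.mk.injEq] at h
    obtain ⟨h3, h4⟩ := h
    subst h4
    rw [hA, mem_coe, mem_sigma] at h1 h2
    have : S = S' := by
      have h1' : s ∈ S := h1.2
      have h2' : s ∈ S' := h2.2
      rw [← insert_erase h1', ← insert_erase h2', h3]
    subst this
    rfl
  calc ∑ x ∈ A, H (x.1.erase x.2) x.2
      = ∑ z ∈ A.image (fun x : (_ : Finset G) × G => (x.1.erase x.2, x.2)), H z.1 z.2 := by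
        rw [sum_image hinj]
    _ ≤ _ := by
        apply sum_le_sum_of_subset_of_nonneg
        · intro z hz
          rw [mem_image] at hz
          obtain ⟨⟨S, s⟩, hx, rfl⟩ := hz
          rw [hA, mem_sigma, mem_filter, mem_powerset] at hx
          rw [mem_product, mem_filter, mem_powerset]
          simp only at hx ⊢
          refine ⟨⟨(erase_subset _ _).trans hx.1.1, ?_⟩, hx.1.1 hx.2⟩
          exact lt_of_le_of_lt (card_erase_le) hx.1.2
        · intro z _ _
          exact hH _ _

theorem card_small {G : Type} [DecidableEq G] (B : Finset G) (j : ℕ) :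
    (B.powerset.filter (fun S => S.card ≤ j)).card ≤ (B.card + 1) ^ j := by
  induction j with
  | zero =>
    have : B.powerset.filter (fun S => S.card ≤ 0) ⊆ {∅} := by
      intro S hS
      rw [mem_filter] at hS
      rw [mem_singleton]
      exact card_eq_zero.mp (Nat.le_zero.mp hS.2)
    simpa using card_le_card this
  | succ j ih =>
    have hsub : B.powerset.filter (fun S => S.card ≤ j + 1) ⊆
        (B.powerset.filter (fun S => S.card ≤ j)) ∪
          B.biUnion (fun x => (B.powerset.filter (fun S => S.card ≤ j)).image (insert x)) := by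
      intro S hS
      rw [mem_filter, mem_powerset] at hS
      rw [mem_union, mem_biUnion]
      by_cases hc : S.card ≤ j
      · left
        rw [mem_filter, mem_powerset]
        exact ⟨hS.1, hc⟩
      · right
        have hne : S.Nonempty := by
          rw [← card_pos]; omega
        obtain ⟨x, hx⟩ := hne
        refine ⟨x, hS.1 hx, ?_⟩
        rw [mem_image]
        refine ⟨S.erase x, ?_, insert_erase hx⟩
        rw [mem_filter, mem_powerset]
        refine ⟨(erase_subset _ _).trans hS.1, ?_⟩
        rw [card_erase_of_mem hx]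
        omega
    calc _ ≤ _ := card_le_card hsub
      _ ≤ _ := card_union_le _ _
      _ ≤ (B.powerset.filter (fun S => S.card ≤ j)).card +
          ∑ x ∈ B, (B.powerset.filter (fun S => S.card ≤ j)).card := by
            gcongr
            refine card_biUnion_le.trans (sum_le_sum ?_)
            intro x _
            exact card_image_le
      _ = (B.card + 1) * (B.powerset.filter (fun S => S.card ≤ j)).card := by
            rw [sum_const, smul_eq_mul]; ring
      _ ≤ (B.card + 1) * (B.card + 1) ^ j := by gcongr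
      _ = (B.card + 1) ^ (j + 1) := by ring

theorem weight_small (hes : S_esymm) {G : Type} [DecidableEq G] (B : Finset G) (q : G → ℝ) (W : ℝ)
    (hq : ∀ b ∈ B, 0 ≤ q b) (hW : ∑ b ∈ B, q b ≤ W) (hW1 : 1 ≤ W) (n : ℕ) :
    ∑ S ∈ B.powerset.filter (fun S => S.card < n), ∏ b ∈ S, q b ≤ n * W ^ n := by
  rw [← sum_fiberwise_of_maps_to (s := B.powerset.filter (fun S => S.card < n)) (t := range n)
    (g := fun S => S.card)
    (by
      intro S hS
      rw [mem_filter] at hS
      rw [mem_range]
      exact hS.2)]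
  calc _ ≤ ∑ j ∈ range n, W ^ n := by
        apply sum_le_sum
        intro j hj
        rw [mem_range] at hj
        calc _ ≤ ∑ S ∈ B.powersetCard j, ∏ b ∈ S, q b := by
              apply sum_le_sum_of_subset_of_nonneg
              · intro S hS
                rw [mem_filter, mem_filter, mem_powerset] at hS
                rw [mem_powersetCard]
                exact ⟨hS.1.1, hS.2⟩
              · intro S hS _
                rw [mem_powersetCard] at hS
                exact prod_nonneg fun b hb => hq b (hS.1 hb)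
          _ ≤ W ^ j / j.factorial := hes G B q W hq hW j
          _ ≤ W ^ j := by
              apply div_le_self (by positivity)
              exact_mod_cast Nat.one_le_iff_ne_zero.mpr (Nat.factorial_ne_zero j)
          _ ≤ W ^ n := pow_le_pow_right₀ hW1 hj.le
    _ = n * W ^ n := by rw [sum_const, card_range, nsmul_eq_mul]

/-- one pair -/
theorem one_pair {G C : Type} [DecidableEq G] [Fintype C] (w : C → ℝ) (hw0 : ∀ c, 0 ≤ w c)
    (F g : G → C → ℝ) (P : G → ℝ) (er : ℝ)
    (hF : ∀ b c, 0 ≤ F b c ∧ F b c ≤ 1) (hg : ∀ b c, 0 ≤ g b c ∧ g b c ≤ 1)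
    (hP : ∀ b, 0 ≤ P b ∧ P b ≤ 1) (S V : Finset G) (hVS : V ⊆ S)
    (her : ∀ b ∈ V, ∑ c, w c * |g b c - P b| ≤ er)
    (hE : ∑ c, w c * ∏ b ∈ S, F b c = ∑ c, w c * ∏ b ∈ S, (if b ∈ V then g b c else F b c)) :
    |∑ c, w c * ∏ b ∈ S, F b c - (∑ c, w c * ∏ b ∈ S \ V, F b c) * ∏ b ∈ V, P b| ≤
      V.card * er := by
  have h1 : ∀ c, ∏ b ∈ S, (if b ∈ V then g b c else F b c) =
      (∏ b ∈ S \ V, F b c) * ∏ b ∈ V, g b c := by
    intro c
    rw [← prod_sdiff hVS]
    congr 1
    · apply prod_congr rfl
      intro b hb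
      rw [mem_sdiff] at hb
      simp [hb.2]
    · apply prod_congr rfl
      intro b hb
      simp [hb]
  rw [hE, sum_mul, ← sum_sub_distrib]
  calc |∑ c, (w c * ∏ b ∈ S, (if b ∈ V then g b c else F b c) -
          w c * (∏ b ∈ S \ V, F b c) * ∏ b ∈ V, P b)|
      ≤ ∑ c, |w c * ∏ b ∈ S, (if b ∈ V then g b c else F b c) -
          w c * (∏ b ∈ S \ V, F b c) * ∏ b ∈ V, P b| := abs_sum_le_sum_abs _ _
    _ ≤ ∑ c, w c * ∑ b ∈ V, |g b c - P b| := by
        apply sum_le_sum
        intro c _
        rw [h1 c]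
        have e : w c * ((∏ b ∈ S \ V, F b c) * ∏ b ∈ V, g b c) -
            w c * (∏ b ∈ S \ V, F b c) * ∏ b ∈ V, P b =
            w c * ((∏ b ∈ S \ V, F b c) * (∏ b ∈ V, g b c - ∏ b ∈ V, P b)) := by ring
        rw [e, abs_mul, abs_of_nonneg (hw0 c)]
        apply mul_le_mul_of_nonneg_left _ (hw0 c)
        rw [abs_mul]
        have hA : |∏ b ∈ S \ V, F b c| ≤ 1 := by
          rw [abs_of_nonneg (prod_nonneg fun b _ => (hF b c).1)]
          exact prod_le_one (fun b _ => (hF b c).1) (fun b _ => (hF b c).2)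
        have hB : |∏ b ∈ V, g b c - ∏ b ∈ V, P b| ≤ ∑ b ∈ V, |g b c - P b| := by
          have : ∀ (Z : Finset G) (u v : G → ℝ), (∀ i, 0 ≤ u i ∧ u i ≤ 1) →
              (∀ i, 0 ≤ v i ∧ v i ≤ 1) →
              |∏ i ∈ Z, u i - ∏ i ∈ Z, v i| ≤ ∑ i ∈ Z, |u i - v i| := by
            intro Z u v hu hv
            induction Z using Finset.induction_on with
            | empty => simp
            | insert x Z hx ih =>
              rw [prod_insert hx, prod_insert hx, sum_insert hx]
              have h1 : u x * ∏ i ∈ Z, u i - v x * ∏ i ∈ Z, v i =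
                  (u x - v x) * ∏ i ∈ Z, u i + v x * (∏ i ∈ Z, u i - ∏ i ∈ Z, v i) := by ring
              rw [h1]
              have h2 : |∏ i ∈ Z, u i| ≤ 1 := by
                rw [abs_of_nonneg (prod_nonneg fun i _ => (hu i).1)]
                exact prod_le_one (fun i _ => (hu i).1) (fun i _ => (hu i).2)
              have h3 : |v x| ≤ 1 := by
                rw [abs_of_nonneg (hv x).1]; exact (hv x).2
              calc |(u x - v x) * ∏ i ∈ Z, u i + v x * (∏ i ∈ Z, u i - ∏ i ∈ Z, v i)|
                  ≤ |(u x - v x) * ∏ i ∈ Z, u i| + |v x * (∏ i ∈ Z, u i - ∏ i ∈ Z, v i)| :=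
                    abs_add_le _ _
                _ = |u x - v x| * |∏ i ∈ Z, u i| + |v x| * |∏ i ∈ Z, u i - ∏ i ∈ Z, v i| := by
                    rw [abs_mul, abs_mul]
                _ ≤ |u x - v x| * 1 + 1 * |∏ i ∈ Z, u i - ∏ i ∈ Z, v i| := by
                    gcongr
                _ ≤ |u x - v x| + ∑ i ∈ Z, |u i - v i| := by linarith
          exact this V _ _ (fun b => hg b c) hP
        calc |∏ b ∈ S \ V, F b c| * |∏ b ∈ V, g b c - ∏ b ∈ V, P b|
            ≤ 1 * ∑ b ∈ V, |g b c - P b| := by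
              apply mul_le_mul hA hB (abs_nonneg _) zero_le_one
          _ = _ := one_mul _
    _ = ∑ b ∈ V, ∑ c, w c * |g b c - P b| := by
        simp_rw [mul_sum]
        rw [sum_comm]
    _ ≤ ∑ b ∈ V, er := sum_le_sum her
    _ = V.card * er := by rw [sum_const, nsmul_eq_mul]

end Pool.Agent.W34.LG
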