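import Pool.Agent.W34.LG.A
import Pool.Agent.W34.LG.B

set_option autoImplicit false

namespace Pool.Agent.W34.LG

open Finset Pool.Agent.W246.LG

open Classical in
theorem pair_bound {G C : Type} [Fintype C] (w : C → ℝ) (hw0 : ∀ c, 0 ≤ w c)
    (hw1 : ∑ c, w c = 1)
    (F g : G → C → ℝ) (P : G → ℝ) (er qs : ℝ) (her0 : 0 ≤ er) (hqs0 : 0 ≤ qs)
    (hF : ∀ b c, 0 ≤ F b c ∧ F b c ≤ 1) (hg : ∀ b c, 0 ≤ g b c ∧ g b c ≤ 1)
    (hP : ∀ b, 0 ≤ P b ∧ P b ≤ 1) (B : Finset G)
    (hqs : ∀ b ∈ B, P b ≤ qs)
    (her : ∀ b ∈ B, ∑ c, w c * |g b c - P b| ≤ er)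
    (NT : Finset G → G → Prop) (I : Finset G → Prop) (D : Finset G → Finset G) (R : ℕ)
    (hexpand : ∀ S ⊆ B, ∀ V ⊆ S, (∀ b ∈ V, ¬ NT S b) →
      ∑ c, w c * ∏ b ∈ S, F b c = ∑ c, w c * ∏ b ∈ S, (if b ∈ V then g b c else F b c))
    (hImono : ∀ S S', S ⊆ S' → I S' → I S) (hIB : ∀ S, I S → S ⊆ B)
    (hIrel : ∀ S, I S → ∀ b ∈ S, ¬ NT S b)
    (hDmono : ∀ S S', S ⊆ S' → D S ⊆ D S')
    (h6 : ∀ S, I S → ∀ x ∈ B, x ∉ S → S.card < 2 * R → ¬ I (insert x S) → x ∈ D S)
    (h7 : ∀ S, I S → ∀ x ∈ B, x ∉ S → S.card < 2 * R →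
      ∀ s ∈ S.filter (fun s => NT (insert x S) s), x ∈ D (S.filter (fun s => NT (insert x S) s)) ∧
        s ∈ D (insert x ((S.filter (fun s => NT (insert x S) s)).erase s)))
    (hx1 : ∀ x ∈ B, ¬ NT {x} x)
    (S : Finset G) (hS : I S) (hSc : S.card < 2 * R) (x : G) (hxB : x ∈ B) (hxS : x ∉ S)
    (hnI : ¬ I (insert x S)) :
    ∑ c, w c * ∏ b ∈ insert x S, F b c ≤
      (if x ∈ D S then (∏ b ∈ S, P b) * qs else 0)
      + (∑ s ∈ S, (if x ∈ (D {s}).erase s then (∏ b ∈ S.erase s, P b) *
          ∑ c, w c * (F s c * F x c) else 0))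
      + (∑ s ∈ S, ∑ t ∈ S.erase s, (if x ∈ D (insert s (insert t ((S.erase s).erase t))) ∧
          s ∈ D (insert x (insert t ((S.erase s).erase t))) ∧
          t ∈ D (insert x (insert s ((S.erase s).erase t))) then
          (∏ b ∈ (S.erase s).erase t, P b) * (P s * P t) else 0))
      + (2 * R + 1) * er := by
  have hSB : S ⊆ B := hIB S hS
  have hSR : (S.card : ℝ) ≤ 2 * R := by exact_mod_cast hSc.le
  have hEnn : ∀ (Z : Finset G), 0 ≤ ∑ c, w c * ∏ b ∈ Z, F b c := fun Z =>
    sum_nonneg fun c _ => mul_nonneg (hw0 c) (prod_nonneg fun b _ => (hF b c).1)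
  have hPnn : ∀ (Z : Finset G), 0 ≤ ∏ b ∈ Z, P b := fun Z => prod_nonneg fun b _ => (hP b).1
  have hP1 : ∀ (Z : Finset G), ∏ b ∈ Z, P b ≤ 1 := fun Z =>
    prod_le_one (fun b _ => (hP b).1) (fun b _ => (hP b).2)
  have hE2nn : ∀ s t, 0 ≤ ∑ c, w c * (F s c * F t c) := fun s t =>
    sum_nonneg fun c _ => mul_nonneg (hw0 c) (mul_nonneg (hF s c).1 (hF t c).1)
  -- nonnegativity of the three terms
  have n0 : 0 ≤ (if x ∈ D S then (∏ b ∈ S, P b) * qs else 0) := by
    split_ifs
    · exact mul_nonneg (hPnn _) hqs0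
    · exact le_rfl
  have n1' : ∀ s ∈ S, 0 ≤ (if x ∈ (D {s}).erase s then (∏ b ∈ S.erase s, P b) *
          ∑ c, w c * (F s c * F x c) else 0) := by
    intro s _
    split_ifs
    · exact mul_nonneg (hPnn _) (hE2nn _ _)
    · exact le_rfl
  have n1 := sum_nonneg n1'
  have n2'' : ∀ s ∈ S, ∀ t ∈ S.erase s,
      0 ≤ (if x ∈ D (insert s (insert t ((S.erase s).erase t))) ∧
          s ∈ D (insert x (insert t ((S.erase s).erase t))) ∧
          t ∈ D (insert x (insert s ((S.erase s).erase t))) then
          (∏ b ∈ (S.erase s).erase t, P b) * (P s * P t) else 0) := by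
    intro s _ t _
    split_ifs
    · exact mul_nonneg (hPnn _) (mul_nonneg (hP _).1 (hP _).1)
    · exact le_rfl
  have n2' : ∀ s ∈ S, 0 ≤ ∑ t ∈ S.erase s,
      (if x ∈ D (insert s (insert t ((S.erase s).erase t))) ∧
          s ∈ D (insert x (insert t ((S.erase s).erase t))) ∧
          t ∈ D (insert x (insert s ((S.erase s).erase t))) then
          (∏ b ∈ (S.erase s).erase t, P b) * (P s * P t) else 0) :=
    fun s hs => sum_nonneg (n2'' s hs)
  have n2 := sum_nonneg n2'
  set S0 := S.filter (fun s => NT (insert x S) s) with hS0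
  have hS0S : S0 ⊆ S := filter_subset _ _
  set V := S \ S0 with hV
  have hVS : V ⊆ S := sdiff_subset
  have hVx : V ⊆ insert x S := hVS.trans (subset_insert _ _)
  have hxSB : insert x S ⊆ B := insert_subset hxB hSB
  have key := one_pair w hw0 F g P er hF hg hP (insert x S) V hVx
    (fun b hb => her b (hSB (hVS hb)))
    (hexpand (insert x S) hxSB V hVx (by
      intro b hb hNT
      rw [hV, mem_sdiff, hS0, mem_filter] at hb
      exact hb.2 ⟨hb.1, hNT⟩))
  have hdiff : insert x S \ V = insert x S0 := by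
    ext b
    simp only [hV, mem_sdiff, mem_insert]
    constructor
    · rintro ⟨h1 | h1, h2⟩
      · left; exact h1
      · by_cases hb : b ∈ S0
        · right; exact hb
        · exact absurd ⟨h1, hb⟩ h2
    · rintro (h1 | h1)
      · subst h1
        exact ⟨Or.inl rfl, fun h => hxS h.1⟩
      · exact ⟨Or.inr (hS0S h1), fun h => h.2 h1⟩
  rw [hdiff] at key
  have key2 := (abs_le.mp key).2
  have hVc : (V.card : ℝ) ≤ 2 * R := by
    have : V.card ≤ S.card := card_le_card hVS
    have h' : (V.card : ℝ) ≤ S.card := by exact_mod_cast this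
    linarith
  have hVer : V.card * er ≤ 2 * R * er := mul_le_mul_of_nonneg_right hVc her0
  rcases Nat.lt_or_ge S0.card 2 with hlt | hge
  · rcases Nat.eq_zero_or_pos S0.card with h0 | hpos
    · -- S0 empty
      have hS0e : S0 = ∅ := card_eq_zero.mp h0
      have hVeq : V = S := by rw [hV, hS0e, sdiff_empty]
      have hxD : x ∈ D S := h6 S hS x hxB hxS hSc hnI
      have kx := one_pair w hw0 F g P er hF hg hP {x} {x} (Subset.refl _)
        (fun b hb => her b (by rw [mem_singleton] at hb; rw [hb]; exact hxB))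
        (hexpand {x} (singleton_subset_iff.mpr hxB) {x} (Subset.refl _) (by
          intro b hb
          rw [mem_singleton] at hb
          rw [hb]
          exact hx1 x hxB))
      rw [sdiff_self] at kx
      simp only [prod_singleton, card_singleton, Nat.cast_one, one_mul] at kx
      have kx2 := (abs_le.mp kx).2
      have hone : ∑ c, w c * ∏ b ∈ (∅ : Finset G), F b c = 1 := by
        simp [hw1]
      have hbot : (⊥ : Finset G) = ∅ := rfl
      rw [hbot, hone, one_mul] at kx2
      rw [hS0e, hVeq] at key2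
      have hins : insert x (∅ : Finset G) = {x} := rfl
      rw [hins] at key2
      simp only [prod_singleton] at key2
      have hPx : P x ≤ qs := hqs x hxB
      have hSer : S.card * er ≤ 2 * R * er := mul_le_mul_of_nonneg_right hSR her0
      have e1 : (∑ c, w c * F x c) * ∏ b ∈ S, P b ≤ (∏ b ∈ S, P b) * qs + er := by
        have a1 : (∑ c, w c * F x c) ≤ qs + er := by linarith
        calc (∑ c, w c * F x c) * ∏ b ∈ S, P b ≤ (qs + er) * ∏ b ∈ S, P b :=
              mul_le_mul_of_nonneg_right a1 (hPnn _)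
          _ = (∏ b ∈ S, P b) * qs + er * ∏ b ∈ S, P b := by ring
          _ ≤ (∏ b ∈ S, P b) * qs + er * 1 := by
              have := mul_le_mul_of_nonneg_left (hP1 S) her0
              linarith
          _ = _ := by ring
      rw [if_pos hxD]
      linarith
    · -- S0 a singleton
      have h1c : S0.card = 1 := by omega
      obtain ⟨s, hs⟩ := card_eq_one.mp h1c
      have hsS0 : s ∈ S0 := by rw [hs]; exact mem_singleton_self s
      have hsS : s ∈ S := hS0S hsS0
      have hVeq : V = S.erase s := by rw [hV, hs, sdiff_singleton_eq_erase]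
      have hxs : x ≠ s := by
        intro h; rw [h] at hxS; exact hxS hsS
      have hxD : x ∈ (D {s}).erase s := by
        rw [mem_erase]
        refine ⟨hxs, ?_⟩
        have := (h7 S hS x hxB hxS hSc s (by rw [← hS0]; exact hsS0)).1
        rw [← hS0, hs] at this
        exact this
      have hEp : ∑ c, w c * ∏ b ∈ insert x S0, F b c = ∑ c, w c * (F s c * F x c) := by
        apply sum_congr rfl
        intro c _
        rw [hs, prod_insert (by rw [mem_singleton]; exact hxs), prod_singleton, mul_comm (F x c)]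
      have hterm : (∑ c, w c * ∏ b ∈ insert x S0, F b c) * ∏ b ∈ V, P b ≤
          ∑ s ∈ S, (if x ∈ (D {s}).erase s then (∏ b ∈ S.erase s, P b) *
          ∑ c, w c * (F s c * F x c) else 0) := by
        have := single_le_sum n1' hsS
        rw [if_pos hxD] at this
        rw [hEp, hVeq, mul_comm]
        exact this
      have : (2 * (R : ℝ) + 1) * er = 2 * R * er + er := by ring
      linarith
  · -- at least two elements
    obtain ⟨s, hs, t, ht, hst⟩ := one_lt_card.mp hge
    have hsS : s ∈ S := hS0S hs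
    have htS : t ∈ S := hS0S ht
    have htSe : t ∈ S.erase s := mem_erase.mpr ⟨hst.symm, htS⟩
    have hS0I : I S0 := hImono S0 S hS0S hS
    have k0 := one_pair w hw0 F g P er hF hg hP S0 S0 (Subset.refl _)
      (fun b hb => her b (hSB (hS0S hb)))
      (hexpand S0 (hS0S.trans hSB) S0 (Subset.refl _) (hIrel S0 hS0I))
    rw [sdiff_self] at k0
    have hone : ∑ c, w c * ∏ b ∈ (∅ : Finset G), F b c = 1 := by
      simp [hw1]
    have hbot : (⊥ : Finset G) = ∅ := rfl
    rw [hbot, hone, one_mul] at k0
    have k02 := (abs_le.mp k0).2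
    have hdrop : ∑ c, w c * ∏ b ∈ insert x S0, F b c ≤ ∑ c, w c * ∏ b ∈ S0, F b c := by
      apply sum_le_sum
      intro c _
      apply mul_le_mul_of_nonneg_left _ (hw0 c)
      rw [prod_insert (fun h => hxS (hS0S h))]
      calc F x c * ∏ b ∈ S0, F b c ≤ 1 * ∏ b ∈ S0, F b c :=
            mul_le_mul_of_nonneg_right (hF x c).2 (prod_nonneg fun b _ => (hF b c).1)
        _ = _ := one_mul _
    have hPS : (∏ b ∈ S0, P b) * ∏ b ∈ V, P b = ∏ b ∈ S, P b := by
      rw [hV, mul_comm, prod_sdiff hS0S]
    have hPS2 : ∏ b ∈ S, P b = (∏ b ∈ (S.erase s).erase t, P b) * (P s * P t) := by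
      rw [← mul_prod_erase S P hsS, ← mul_prod_erase (S.erase s) P htSe]
      ring
    have e1 : (∑ c, w c * ∏ b ∈ insert x S0, F b c) * ∏ b ∈ V, P b ≤
        ∏ b ∈ S, P b + S0.card * er := by
      calc (∑ c, w c * ∏ b ∈ insert x S0, F b c) * ∏ b ∈ V, P b
          ≤ ((∏ b ∈ S0, P b) + S0.card * er) * ∏ b ∈ V, P b := by
            apply mul_le_mul_of_nonneg_right _ (hPnn _)
            linarith
        _ = ∏ b ∈ S, P b + S0.card * er * ∏ b ∈ V, P b := by rw [add_mul, hPS]
        _ ≤ ∏ b ∈ S, P b + S0.card * er * 1 := by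
            have := mul_le_mul_of_nonneg_left (hP1 V)
              (mul_nonneg (Nat.cast_nonneg (α := ℝ) S0.card) her0)
            linarith
        _ = _ := by ring
    have hcards : (S0.card : ℝ) + V.card = S.card := by
      have h1 := card_sdiff_add_card_eq_card hS0S
      rw [← hV] at h1
      have : ((V.card + S0.card : ℕ) : ℝ) = (S.card : ℝ) := by rw [h1]
      push_cast at this
      linarith
    have hSer : S0.card * er + V.card * er ≤ 2 * R * er := by
      rw [← add_mul, hcards]
      exact mul_le_mul_of_nonneg_right hSR her0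
    -- the relation
    have hS0sub : S0 ⊆ insert s (insert t ((S.erase s).erase t)) := by
      intro b hb
      rw [mem_insert, mem_insert, mem_erase, mem_erase]
      by_cases h1 : b = s
      · left; exact h1
      · by_cases h2 : b = t
        · right; left; exact h2
        · right; right; exact ⟨h2, h1, hS0S hb⟩
    have hsub2 : insert x (S0.erase s) ⊆ insert x (insert t ((S.erase s).erase t)) := by
      intro b hb
      rw [mem_insert, mem_erase] at hb
      rw [mem_insert, mem_insert, mem_erase, mem_erase]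
      rcases hb with hb | hb
      · left; exact hb
      · by_cases h2 : b = t
        · right; left; exact h2
        · right; right; exact ⟨h2, hb.1, hS0S hb.2⟩
    have hsub3 : insert x (S0.erase t) ⊆ insert x (insert s ((S.erase s).erase t)) := by
      intro b hb
      rw [mem_insert, mem_erase] at hb
      rw [mem_insert, mem_insert, mem_erase, mem_erase]
      rcases hb with hb | hb
      · left; exact hb
      · by_cases h2 : b = s
        · right; left; exact h2
        · right; right; exact ⟨hb.1, h2, hS0S hb.2⟩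
    have hcond : x ∈ D (insert s (insert t ((S.erase s).erase t))) ∧
          s ∈ D (insert x (insert t ((S.erase s).erase t))) ∧
          t ∈ D (insert x (insert s ((S.erase s).erase t))) := by
      refine ⟨?_, ?_, ?_⟩
      · have := (h7 S hS x hxB hxS hSc s (by rw [← hS0]; exact hs)).1
        rw [← hS0] at this
        exact hDmono _ _ hS0sub this
      · have := (h7 S hS x hxB hxS hSc s (by rw [← hS0]; exact hs)).2
        rw [← hS0] at this
        exact hDmono _ _ hsub2 this
      · have := (h7 S hS x hxB hxS hSc t (by rw [← hS0]; exact ht)).2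
        rw [← hS0] at this
        exact hDmono _ _ hsub3 this
    have hterm : ∏ b ∈ S, P b ≤ ∑ s ∈ S, ∑ t ∈ S.erase s,
        (if x ∈ D (insert s (insert t ((S.erase s).erase t))) ∧
          s ∈ D (insert x (insert t ((S.erase s).erase t))) ∧
          t ∈ D (insert x (insert s ((S.erase s).erase t))) then
          (∏ b ∈ (S.erase s).erase t, P b) * (P s * P t) else 0) := by
      have a1 := single_le_sum n2' hsS
      have a2 := single_le_sum (n2'' s hsS) htSe
      rw [if_pos hcond, ← hPS2] at a2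
      exact a2.trans a1
    have : (2 * (R : ℝ) + 1) * er = 2 * R * er + er := by ring
    linarith

end Pool.Agent.W34.LG
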