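import Pool.Agent.W34.LG.C

set_option autoImplicit false

namespace Pool.Agent.W34.LG

open Finset Pool.Agent.W246.LG

open Classical in
theorem graph_use (hgraph : S_graph) {G : Type} (B : Finset G) (P : G → ℝ) (qs W σ : ℝ) (R : ℕ)
    (D : Finset G → Finset G)
    (hP : ∀ b ∈ B, 0 ≤ P b ∧ P b ≤ qs) (hW : ∑ b ∈ B, P b ≤ W) (hW1 : 1 ≤ W) (hσ : 1 ≤ σ)
    (hqs0 : 0 < qs) (hDq : σ * (2 * R + 2) * qs ≤ 1 / 16)
    (hDmono : ∀ S S', S ⊆ S' → D S ⊆ D S')
    (hDc : ∀ F ⊆ B, ((D F).card : ℝ) ≤ σ * F.card)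
    (S2 : Finset G) (hS2 : S2 ⊆ B) (hS2c : S2.card < 2 * R) :
    ∑ x ∈ B, ∑ s ∈ B, ∑ t ∈ B.filter (fun t => s ≠ t ∧ (x ∈ D (insert s (insert t S2)) ∧
      s ∈ D (insert x (insert t S2)) ∧ t ∈ D (insert x (insert s S2)))), P s * P t ≤
      100 * σ * (2 * R + 1) * W ^ 2 * Real.sqrt (σ * (2 * R + 2) * qs) := by
  have hR1 : (S2.card : ℝ) + 1 ≤ 2 * R := by exact_mod_cast hS2c
  have hR0 : (0 : ℝ) ≤ R := Nat.cast_nonneg R
  have hins : ∀ x ∈ B, ∀ s ∈ B, ((D (insert x (insert s S2))).card : ℝ) ≤ σ * (2 * R + 2) := by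
    intro x hx s hs
    refine (hDc _ (insert_subset hx (insert_subset hs hS2))).trans ?_
    apply mul_le_mul_of_nonneg_left _ (by linarith)
    have : (insert x (insert s S2)).card ≤ S2.card + 2 := by
      refine (card_insert_le _ _).trans ?_
      have := card_insert_le s S2
      omega
    have h' : ((insert x (insert s S2)).card : ℝ) ≤ S2.card + 2 := by exact_mod_cast this
    linarith
  have c1 : 1 ≤ σ * (2 * (R : ℝ) + 2) := by nlinarith
  have c2 : ∀ x ∈ B, ∀ s ∈ B, ((B.filter (fun t => x ∈ D (insert s (insert t S2)) ∧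
      s ∈ D (insert x (insert t S2)) ∧ t ∈ D (insert x (insert s S2)))).card : ℝ) ≤
      σ * (2 * R + 2) := by
    intro x hx s hs
    refine le_trans ?_ (hins x hx s hs)
    have : (B.filter (fun t => x ∈ D (insert s (insert t S2)) ∧
      s ∈ D (insert x (insert t S2)) ∧ t ∈ D (insert x (insert s S2)))) ⊆
        D (insert x (insert s S2)) := by
      intro t ht
      rw [mem_filter] at ht
      exact ht.2.2.2
    exact_mod_cast card_le_card this
  have c3 : ∀ x ∈ B, ∀ t ∈ B, ((B.filter (fun s => x ∈ D (insert s (insert t S2)) ∧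
      s ∈ D (insert x (insert t S2)) ∧ t ∈ D (insert x (insert s S2)))).card : ℝ) ≤
      σ * (2 * R + 2) := by
    intro x hx t ht
    refine le_trans ?_ (hins x hx t ht)
    have : (B.filter (fun s => x ∈ D (insert s (insert t S2)) ∧
      s ∈ D (insert x (insert t S2)) ∧ t ∈ D (insert x (insert s S2)))) ⊆
        D (insert x (insert t S2)) := by
      intro s hs
      rw [mem_filter] at hs
      exact hs.2.2.1
    exact_mod_cast card_le_card this
  have c4 : ∀ F ⊆ B, ((B.filter (fun x => ∃ s ∈ F, ∃ t ∈ F, s ≠ t ∧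
        (x ∈ D (insert s (insert t S2)) ∧
      s ∈ D (insert x (insert t S2)) ∧ t ∈ D (insert x (insert s S2))))).card : ℝ) ≤
      σ * (F.card + 2 * R) := by
    intro F hF
    have hsub : (B.filter (fun x => ∃ s ∈ F, ∃ t ∈ F, s ≠ t ∧
        (x ∈ D (insert s (insert t S2)) ∧
      s ∈ D (insert x (insert t S2)) ∧ t ∈ D (insert x (insert s S2))))) ⊆ D (F ∪ S2) := by
      intro x hx
      rw [mem_filter] at hx
      obtain ⟨_, s, hs, t, ht, _, hxD, _⟩ := hx
      refine hDmono _ _ ?_ hxD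
      intro b hb
      rw [mem_insert, mem_insert] at hb
      rw [mem_union]
      rcases hb with hb | hb | hb
      · left; rw [hb]; exact hs
      · left; rw [hb]; exact ht
      · right; exact hb
    have h1 : ((B.filter (fun x => ∃ s ∈ F, ∃ t ∈ F, s ≠ t ∧
        (x ∈ D (insert s (insert t S2)) ∧
      s ∈ D (insert x (insert t S2)) ∧ t ∈ D (insert x (insert s S2))))).card : ℝ) ≤
        (D (F ∪ S2)).card := by exact_mod_cast card_le_card hsub
    refine h1.trans ((hDc _ (union_subset hF hS2)).trans ?_)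
    apply mul_le_mul_of_nonneg_left _ (by linarith)
    have : (F ∪ S2).card ≤ F.card + S2.card := card_union_le _ _
    have h' : ((F ∪ S2).card : ℝ) ≤ F.card + S2.card := by exact_mod_cast this
    linarith
  have key := hgraph G B P qs W (σ * (2 * R + 2)) σ (2 * R)
    (fun x s t => x ∈ D (insert s (insert t S2)) ∧
      s ∈ D (insert x (insert t S2)) ∧ t ∈ D (insert x (insert s S2)))
    hP hW hW1 c1 hqs0 hDq (by linarith) (by positivity)
    (by intro x hx s hs; convert c2 x hx s hs)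
    (by intro x hx t ht; convert c3 x hx t ht)
    (by intro F hF; convert c4 F hF)
  convert key

open Classical in
theorem err_sum (hgraph : S_graph) {G C : Type} [Fintype C] (w : C → ℝ) (hw0 : ∀ c, 0 ≤ w c)
    (hw1 : ∑ c, w c = 1)
    (F g : G → C → ℝ) (P : G → ℝ) (er qs W σ : ℝ) (her0 : 0 ≤ er) (hqs0 : 0 < qs)
    (hF : ∀ b c, 0 ≤ F b c ∧ F b c ≤ 1) (hg : ∀ b c, 0 ≤ g b c ∧ g b c ≤ 1)
    (hP : ∀ b, 0 ≤ P b ∧ P b ≤ 1) (B : Finset G)
    (hqs : ∀ b ∈ B, P b ≤ qs) (hW : ∑ b ∈ B, P b ≤ W) (hW1 : 1 ≤ W) (hσ : 1 ≤ σ)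
    (her : ∀ b ∈ B, ∑ c, w c * |g b c - P b| ≤ er)
    (NT : Finset G → G → Prop) (I : Finset G → Prop) (D : Finset G → Finset G) (R k : ℕ)
    (hR : 1 ≤ R) (hk : B.card ≤ k)
    (hDq : σ * (2 * R + 2) * qs ≤ 1 / 16)
    (hexpand : ∀ S ⊆ B, ∀ V ⊆ S, (∀ b ∈ V, ¬ NT S b) →
      ∑ c, w c * ∏ b ∈ S, F b c = ∑ c, w c * ∏ b ∈ S, (if b ∈ V then g b c else F b c))
    (hImono : ∀ S S', S ⊆ S' → I S' → I S) (hIB : ∀ S, I S → S ⊆ B)
    (hIrel : ∀ S, I S → ∀ b ∈ S, ¬ NT S b)
    (hDmono : ∀ S S', S ⊆ S' → D S ⊆ D S') (hDB : ∀ S, D S ⊆ B)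
    (hDc : ∀ F ⊆ B, ((D F).card : ℝ) ≤ σ * F.card)
    (h6 : ∀ S, I S → ∀ x ∈ B, x ∉ S → S.card < 2 * R → ¬ I (insert x S) → x ∈ D S)
    (h7 : ∀ S, I S → ∀ x ∈ B, x ∉ S → S.card < 2 * R →
      ∀ s ∈ S.filter (fun s => NT (insert x S) s), x ∈ D (S.filter (fun s => NT (insert x S) s)) ∧
        s ∈ D (insert x ((S.filter (fun s => NT (insert x S) s)).erase s)))
    (hx1 : ∀ x ∈ B, ¬ NT {x} x) :
    ∑ S ∈ B.powerset.filter (fun S => S.card < 2 * R ∧ I S),
      ∑ x ∈ (B \ S).filter (fun x => ¬ I (insert x S)), ∑ c, w c * ∏ b ∈ insert x S, F b c ≤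
    (∑ S ∈ B.powerset.filter (fun S => S.card < 2 * R), ∏ b ∈ S, P b) *
      (σ * (2 * R) * qs + (∑ s ∈ B, ∑ x ∈ (D {s}).erase s, ∑ c, w c * (F s c * F x c)) +
        100 * σ * (2 * R + 1) * W ^ 2 * Real.sqrt (σ * (2 * R + 2) * qs)) +
      (k + 1) ^ (2 * R) * ((2 * R + 1) * er) := by
  have hPnn : ∀ (Z : Finset G), 0 ≤ ∏ b ∈ Z, P b := fun Z => prod_nonneg fun b _ => (hP b).1
  have hE2nn : ∀ s t, 0 ≤ ∑ c, w c * (F s c * F t c) := fun s t =>
    sum_nonneg fun c _ => mul_nonneg (hw0 c) (mul_nonneg (hF s c).1 (hF t c).1)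
  have hR0 : (0 : ℝ) ≤ R := Nat.cast_nonneg R
  set FF := B.powerset.filter (fun S => S.card < 2 * R) with hFF
  -- the terms
  set t0 : Finset G → G → ℝ := fun S x => (if x ∈ D S then (∏ b ∈ S, P b) * qs else 0) with ht0
  set t1 : Finset G → G → G → ℝ := fun S1 s x => (if x ∈ (D {s}).erase s then (∏ b ∈ S1, P b) *
          ∑ c, w c * (F s c * F x c) else 0) with ht1
  set t2 : Finset G → G → G → G → ℝ := fun S2 s t x =>
      (if s ≠ t ∧ (x ∈ D (insert s (insert t S2)) ∧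
          s ∈ D (insert x (insert t S2)) ∧
          t ∈ D (insert x (insert s S2))) then
          (∏ b ∈ S2, P b) * (P s * P t) else 0) with ht2
  have n0 : ∀ S x, 0 ≤ t0 S x := by
    intro S x
    simp only [ht0]
    split_ifs
    · exact mul_nonneg (hPnn _) hqs0.le
    · exact le_rfl
  have n1 : ∀ S s x, 0 ≤ t1 S s x := by
    intro S s x
    simp only [ht1]
    split_ifs
    · exact mul_nonneg (hPnn _) (hE2nn _ _)
    · exact le_rfl
  have n2 : ∀ S s t x, 0 ≤ t2 S s t x := by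
    intro S s t x
    simp only [ht2]
    split_ifs
    · exact mul_nonneg (hPnn _) (mul_nonneg (hP _).1 (hP _).1)
    · exact le_rfl
  set A : Finset G → G → ℝ := fun S x => t0 S x + (∑ s ∈ S, t1 (S.erase s) s x) +
    (∑ s ∈ S, ∑ t ∈ S.erase s, t2 ((S.erase s).erase t) s t x) + (2 * R + 1) * er with hA
  have nA : ∀ S x, 0 ≤ A S x := by
    intro S x
    simp only [hA]
    have a1 := n0 S x
    have a2 : 0 ≤ ∑ s ∈ S, t1 (S.erase s) s x := sum_nonneg fun s _ => n1 _ _ _
    have a3 : 0 ≤ ∑ s ∈ S, ∑ t ∈ S.erase s, t2 ((S.erase s).erase t) s t x :=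
      sum_nonneg fun s _ => sum_nonneg fun t _ => n2 _ _ _ _
    have a4 : 0 ≤ (2 * (R : ℝ) + 1) * er := by positivity
    linarith
  have hpair : ∀ S, I S → S.card < 2 * R → ∀ x ∈ B, x ∉ S → ¬ I (insert x S) →
      ∑ c, w c * ∏ b ∈ insert x S, F b c ≤ A S x := by
    intro S hS hSc x hx hxS hnI
    have := pair_bound w hw0 hw1 F g P er qs her0 hqs0.le hF hg hP B hqs her NT I D R hexpand hImono
      hIB hIrel hDmono h6 h7 hx1 S hS hSc x hx hxS hnI
    refine this.trans (le_of_eq ?_)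
    simp only [hA, ht0, ht1, ht2]
    congr 2
    apply sum_congr rfl
    intro s _
    apply sum_congr rfl
    intro t ht
    have : s ≠ t := (ne_of_mem_erase ht).symm
    simp only [ne_eq, this, not_false_eq_true, true_and]
  have step1 : ∑ S ∈ B.powerset.filter (fun S => S.card < 2 * R ∧ I S),
      ∑ x ∈ (B \ S).filter (fun x => ¬ I (insert x S)), ∑ c, w c * ∏ b ∈ insert x S, F b c ≤
      ∑ S ∈ FF, ∑ x ∈ B, A S x := by
    calc _ ≤ ∑ S ∈ B.powerset.filter (fun S => S.card < 2 * R ∧ I S), ∑ x ∈ B, A S x := by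
          apply sum_le_sum
          intro S hS
          rw [mem_filter, mem_powerset] at hS
          calc _ ≤ ∑ x ∈ (B \ S).filter (fun x => ¬ I (insert x S)), A S x := by
                apply sum_le_sum
                intro x hx
                rw [mem_filter, mem_sdiff] at hx
                exact hpair S hS.2.2 hS.2.1 x hx.1.1 hx.1.2 hx.2
            _ ≤ _ := by
                apply sum_le_sum_of_subset_of_nonneg
                · exact (filter_subset _ _).trans sdiff_subset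
                · intro x _ _; exact nA S x
      _ ≤ _ := by
          apply sum_le_sum_of_subset_of_nonneg
          · intro S hS
            rw [mem_filter] at hS
            rw [hFF, mem_filter]
            exact ⟨hS.1, hS.2.1⟩
          · intro S _ _
            exact sum_nonneg fun x _ => nA S x
  set Z := ∑ S ∈ FF, ∏ b ∈ S, P b with hZ
  -- the four sums
  have b0 : ∑ S ∈ FF, ∑ x ∈ B, t0 S x ≤ Z * (σ * (2 * R) * qs) := by
    rw [hZ, sum_mul]
    apply sum_le_sum
    intro S hS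
    rw [hFF, mem_filter, mem_powerset] at hS
    simp only [ht0]
    rw [← sum_filter, sum_const, nsmul_eq_mul]
    have hc : ((B.filter (fun x => x ∈ D S)).card : ℝ) ≤ σ * (2 * R) := by
      have h1 : ((B.filter (fun x => x ∈ D S)).card : ℝ) ≤ (D S).card := by
        exact_mod_cast card_le_card (fun x hx => (mem_filter.mp hx).2)
      have h2 := hDc S hS.1
      have h3 : (S.card : ℝ) ≤ 2 * R := by exact_mod_cast hS.2.le
      have h4 : σ * S.card ≤ σ * (2 * R) := mul_le_mul_of_nonneg_left h3 (by linarith)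
      linarith
    calc _ ≤ (σ * (2 * R)) * ((∏ b ∈ S, P b) * qs) :=
          mul_le_mul_of_nonneg_right hc (mul_nonneg (hPnn _) hqs0.le)
      _ = _ := by ring
  have b1 : ∑ S ∈ FF, ∑ x ∈ B, ∑ s ∈ S, t1 (S.erase s) s x ≤
      Z * (∑ s ∈ B, ∑ x ∈ (D {s}).erase s, ∑ c, w c * (F s c * F x c)) := by
    calc ∑ S ∈ FF, ∑ x ∈ B, ∑ s ∈ S, t1 (S.erase s) s x
        = ∑ S ∈ FF, ∑ s ∈ S, ∑ x ∈ B, t1 (S.erase s) s x := by
          apply sum_congr rfl
          intro S _
          rw [sum_comm]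
      _ ≤ ∑ S ∈ FF, ∑ s ∈ B, ∑ x ∈ B, t1 S s x :=
          reindex B (2 * R) (fun S s => ∑ x ∈ B, t1 S s x)
            (fun S s => sum_nonneg fun x _ => n1 _ _ _)
      _ = _ := by
          rw [hZ, sum_mul]
          apply sum_congr rfl
          intro S _
          rw [mul_sum]
          apply sum_congr rfl
          intro s _
          simp only [ht1]
          rw [← sum_filter, mul_sum]
          apply sum_congr _ (fun _ _ => rfl)
          ext x
          rw [mem_filter]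
          constructor
          · intro hx; exact hx.2
          · intro hx; exact ⟨hDB _ (mem_of_mem_erase hx), hx⟩
  have b2 : ∑ S ∈ FF, ∑ x ∈ B, ∑ s ∈ S, ∑ t ∈ S.erase s, t2 ((S.erase s).erase t) s t x ≤
      Z * (100 * σ * (2 * R + 1) * W ^ 2 * Real.sqrt (σ * (2 * R + 2) * qs)) := by
    calc ∑ S ∈ FF, ∑ x ∈ B, ∑ s ∈ S, ∑ t ∈ S.erase s, t2 ((S.erase s).erase t) s t x
        = ∑ S ∈ FF, ∑ s ∈ S, ∑ t ∈ S.erase s, ∑ x ∈ B, t2 ((S.erase s).erase t) s t x := by
          apply sum_congr rfl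
          intro S _
          rw [sum_comm]
          apply sum_congr rfl
          intro s _
          rw [sum_comm]
      _ ≤ ∑ S ∈ FF, ∑ s ∈ B, ∑ t ∈ S, ∑ x ∈ B, t2 (S.erase t) s t x :=
          reindex B (2 * R) (fun S s => ∑ t ∈ S, ∑ x ∈ B, t2 (S.erase t) s t x)
            (fun S s => sum_nonneg fun t _ => sum_nonneg fun x _ => n2 _ _ _ _)
      _ = ∑ s ∈ B, ∑ S ∈ FF, ∑ t ∈ S, ∑ x ∈ B, t2 (S.erase t) s t x := by rw [sum_comm]
      _ ≤ ∑ s ∈ B, ∑ S ∈ FF, ∑ t ∈ B, ∑ x ∈ B, t2 S s t x := by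
          apply sum_le_sum
          intro s _
          exact reindex B (2 * R) (fun S t => ∑ x ∈ B, t2 S s t x)
            (fun S t => sum_nonneg fun x _ => n2 _ _ _ _)
      _ = ∑ S ∈ FF, ∑ s ∈ B, ∑ t ∈ B, ∑ x ∈ B, t2 S s t x := by rw [sum_comm]
      _ = ∑ S ∈ FF, ∑ x ∈ B, ∑ s ∈ B, ∑ t ∈ B, t2 S s t x := by
          apply sum_congr rfl
          intro S _
          calc ∑ s ∈ B, ∑ t ∈ B, ∑ x ∈ B, t2 S s t x
              = ∑ s ∈ B, ∑ x ∈ B, ∑ t ∈ B, t2 S s t x := sum_congr rfl (fun s _ => sum_comm)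
            _ = _ := sum_comm
      _ ≤ _ := by
          rw [hZ, sum_mul]
          apply sum_le_sum
          intro S hS
          rw [hFF, mem_filter, mem_powerset] at hS
          have key := graph_use hgraph B P qs W σ R D (fun b hb => ⟨(hP b).1, hqs b hb⟩) hW hW1 hσ
            hqs0 hDq hDmono hDc S hS.1 hS.2
          have := mul_le_mul_of_nonneg_left key (hPnn S)
          refine le_trans (le_of_eq ?_) this
          rw [mul_sum]
          apply sum_congr rfl
          intro x _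
          rw [mul_sum]
          apply sum_congr rfl
          intro s _
          rw [mul_sum, sum_filter]
  have b3 : ∑ S ∈ FF, ∑ x ∈ B, (2 * (R : ℝ) + 1) * er ≤ (k + 1) ^ (2 * R) * ((2 * R + 1) * er) := by
    have hc : ((FF.card : ℕ) : ℝ) ≤ (k + 1) ^ (2 * R - 1) := by
      have h1 : FF ⊆ B.powerset.filter (fun S => S.card ≤ 2 * R - 1) := by
        intro S hS
        rw [hFF, mem_filter] at hS
        rw [mem_filter]
        exact ⟨hS.1, by omega⟩
      have h2 := (card_le_card h1).trans (card_small B (2 * R - 1))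
      have h3 : (B.card + 1) ^ (2 * R - 1) ≤ (k + 1) ^ (2 * R - 1) := by gcongr
      exact_mod_cast h2.trans h3
    have hkB : (B.card : ℝ) ≤ k + 1 := by
      have : (B.card : ℝ) ≤ k := by exact_mod_cast hk
      linarith
    rw [sum_const, sum_const, nsmul_eq_mul, nsmul_eq_mul]
    have h4 : (FF.card : ℝ) * B.card ≤ (k + 1) ^ (2 * R) := by
      calc (FF.card : ℝ) * B.card ≤ (k + 1) ^ (2 * R - 1) * (k + 1) := by
            apply mul_le_mul hc hkB (by positivity) (by positivity)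
        _ = (k + 1) ^ (2 * R) := by
            rw [← pow_succ]
            congr 1
            omega
    calc (FF.card : ℝ) * (B.card * ((2 * R + 1) * er)) = (FF.card * B.card) * ((2 * R + 1) * er) := by
          ring
      _ ≤ _ := mul_le_mul_of_nonneg_right h4 (by positivity)
  have hsplit : ∑ S ∈ FF, ∑ x ∈ B, A S x =
      ∑ S ∈ FF, ∑ x ∈ B, t0 S x + ∑ S ∈ FF, ∑ x ∈ B, ∑ s ∈ S, t1 (S.erase s) s x +
      ∑ S ∈ FF, ∑ x ∈ B, ∑ s ∈ S, ∑ t ∈ S.erase s, t2 ((S.erase s).erase t) s t x +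
      ∑ S ∈ FF, ∑ x ∈ B, (2 * (R : ℝ) + 1) * er := by
    simp only [hA, sum_add_distrib]
  rw [hsplit] at step1
  linarith

end Pool.Agent.W34.LG
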