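import Pool.Agent.W34.LG.D

set_option autoImplicit false

namespace Pool.Agent.W34.LG

open Finset Pool.Agent.W246.LG

open Classical in
theorem abs_main (hbonf : S_bonf) (hmain : S_main) (hgraph : S_graph)
    (hdsum : S_depsum) {G C : Type} [Fintype C] (w : C → ℝ) (hw0 : ∀ c, 0 ≤ w c)
    (hw1 : ∑ c, w c = 1)
    (F g : G → C → ℝ) (P : G → ℝ) (er qs W σ : ℝ) (her0 : 0 ≤ er) (hqs0 : 0 < qs)
    (hF : ∀ b c, 0 ≤ F b c ∧ F b c ≤ 1) (hg : ∀ b c, 0 ≤ g b c ∧ g b c ≤ 1)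
    (hP : ∀ b, 0 ≤ P b ∧ P b ≤ 1) (B : Finset G)
    (hqs : ∀ b ∈ B, P b ≤ qs) (hqs2 : qs ≤ 1 / 2)
    (hW : ∑ b ∈ B, P b ≤ W) (hW1 : 1 ≤ W) (hσ : 1 ≤ σ)
    (her : ∀ b ∈ B, ∑ c, w c * |g b c - P b| ≤ er)
    (NT : Finset G → G → Prop) (I : Finset G → Prop) (D : Finset G → Finset G) (R k : ℕ)
    (hR : Odd R) (hk : B.card ≤ k)
    (hDq : σ * (2 * R + 2) * qs ≤ 1 / 16)
    (hexpand : ∀ S ⊆ B, ∀ V ⊆ S, (∀ b ∈ V, ¬ NT S b) →
      ∑ c, w c * ∏ b ∈ S, F b c = ∑ c, w c * ∏ b ∈ S, (if b ∈ V then g b c else F b c))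
    (hI0 : I ∅)
    (hImono : ∀ S S', S ⊆ S' → I S' → I S) (hIB : ∀ S, I S → S ⊆ B)
    (hIrel : ∀ S, I S → ∀ b ∈ S, ¬ NT S b)
    (hInot : ∀ S ⊆ B, ¬ I S → ∃ x ∈ S, x ∈ D (S.erase x))
    (hDmono : ∀ S S', S ⊆ S' → D S ⊆ D S') (hDB : ∀ S, D S ⊆ B)
    (hDc : ∀ F ⊆ B, ((D F).card : ℝ) ≤ σ * F.card)
    (h6 : ∀ S, I S → ∀ x ∈ B, x ∉ S → S.card < 2 * R → ¬ I (insert x S) → x ∈ D S)
    (h7 : ∀ S, I S → ∀ x ∈ B, x ∉ S → S.card < 2 * R →
      ∀ s ∈ S.filter (fun s => NT (insert x S) s), x ∈ D (S.filter (fun s => NT (insert x S) s)) ∧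
        s ∈ D (insert x ((S.filter (fun s => NT (insert x S) s)).erase s)))
    (hx1 : ∀ x ∈ B, ¬ NT {x} x) :
    Real.exp (-2 * W) - W ^ (R + 1) / (R + 1).factorial -
      (((k : ℝ) + 1) ^ R * (R * er) + (R + 1) * W ^ R * (σ * R * qs) +
      4 ^ R * ((∑ S ∈ B.powerset.filter (fun S => S.card < 2 * R), ∏ b ∈ S, P b) *
      (σ * (2 * R) * qs + (∑ s ∈ B, ∑ x ∈ (D {s}).erase s, ∑ c, w c * (F s c * F x c)) +
        100 * σ * (2 * R + 1) * W ^ 2 * Real.sqrt (σ * (2 * R + 2) * qs)) +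
      (k + 1) ^ (2 * R) * ((2 * R + 1) * er))) ≤
    ∑ c, w c * ∏ b ∈ B, (1 - F b c) := by
  have hPnn : ∀ (Z : Finset G), 0 ≤ ∏ b ∈ Z, P b := fun Z => prod_nonneg fun b _ => (hP b).1
  have hRpos : 1 ≤ R := by
    obtain ⟨m, hm⟩ := hR
    omega
  -- Bonferroni
  have hb : ∀ c, w c * (∑ S ∈ B.powerset.filter (fun S => S.card ≤ R ∧ I S),
        (-1 : ℝ) ^ S.card * ∏ b ∈ S, F b c
      - 4 ^ R * ∑ S ∈ B.powerset.filter (fun S => S.card < 2 * R ∧ I S),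
        ∑ x ∈ (B \ S).filter (fun x => ¬ I (insert x S)), ∏ b ∈ insert x S, F b c) ≤
      w c * ∏ b ∈ B, (1 - F b c) := by
    intro c
    apply mul_le_mul_of_nonneg_left _ (hw0 c)
    have := hbonf G B (fun b => F b c) (fun b _ => hF b c) I hI0 hImono R hR
    convert this
  have hb' := sum_le_sum (fun c (_ : c ∈ (univ : Finset C)) => hb c)
  refine le_trans ?_ hb'
  have hsw : ∑ c, w c * (∑ S ∈ B.powerset.filter (fun S => S.card ≤ R ∧ I S),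
        (-1 : ℝ) ^ S.card * ∏ b ∈ S, F b c
      - 4 ^ R * ∑ S ∈ B.powerset.filter (fun S => S.card < 2 * R ∧ I S),
        ∑ x ∈ (B \ S).filter (fun x => ¬ I (insert x S)), ∏ b ∈ insert x S, F b c) =
      (∑ S ∈ B.powerset.filter (fun S => S.card ≤ R ∧ I S),
        (-1 : ℝ) ^ S.card * ∑ c, w c * ∏ b ∈ S, F b c)
      - 4 ^ R * ∑ S ∈ B.powerset.filter (fun S => S.card < 2 * R ∧ I S),
        ∑ x ∈ (B \ S).filter (fun x => ¬ I (insert x S)), ∑ c, w c * ∏ b ∈ insert x S, F b c := by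
    simp only [mul_sub, sum_sub_distrib]
    congr 1
    · simp only [mul_sum]
      rw [sum_comm]
      apply sum_congr rfl
      intro S _
      apply sum_congr rfl
      intro c _
      ring
    · simp only [mul_sum]
      rw [sum_comm]
      apply sum_congr rfl
      intro S _
      rw [sum_comm]
      apply sum_congr rfl
      intro x _
      apply sum_congr rfl
      intro c _
      ring
  rw [hsw]
  have herr := err_sum hgraph w hw0 hw1 F g P er qs W σ her0 hqs0 hF hg hP B hqs hW hW1 hσ her NT I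
    D R k hRpos hk hDq hexpand hImono hIB hIrel hDmono hDB hDc h6 h7 hx1
  have herr4 := mul_le_mul_of_nonneg_left herr (by positivity : (0 : ℝ) ≤ 4 ^ R)
  -- the main term
  have hm1 : ∀ S ∈ B.powerset.filter (fun S => S.card ≤ R ∧ I S),
      (-1 : ℝ) ^ S.card * ∏ b ∈ S, P b - R * er ≤
      (-1 : ℝ) ^ S.card * ∑ c, w c * ∏ b ∈ S, F b c := by
    intro S hS
    rw [mem_filter, mem_powerset] at hS
    have k0 := one_pair w hw0 F g P er hF hg hP S S (Subset.refl _)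
      (fun b hb => her b (hS.1 hb))
      (hexpand S hS.1 S (Subset.refl _) (hIrel S hS.2.2))
    rw [sdiff_self] at k0
    have hone : ∑ c, w c * ∏ b ∈ (∅ : Finset G), F b c = 1 := by
      simp [hw1]
    have hbot : (⊥ : Finset G) = ∅ := rfl
    rw [hbot, hone, one_mul] at k0
    have hc : (S.card : ℝ) * er ≤ R * er := by
      apply mul_le_mul_of_nonneg_right _ her0
      exact_mod_cast hS.2.1
    have k1 := abs_le.mp (k0.trans hc)
    rcases neg_one_pow_eq_or ℝ S.card with h1 | h1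
    · rw [h1]; linarith [k1.1]
    · rw [h1]; linarith [k1.2]
  have hm2 := sum_le_sum hm1
  rw [sum_sub_distrib, sum_const, nsmul_eq_mul] at hm2
  have hcount : ((B.powerset.filter (fun S => S.card ≤ R ∧ I S)).card : ℝ) * (R * er) ≤
      ((k : ℝ) + 1) ^ R * (R * er) := by
    apply mul_le_mul_of_nonneg_right _ (by positivity)
    have h1 : B.powerset.filter (fun S => S.card ≤ R ∧ I S) ⊆
        B.powerset.filter (fun S => S.card ≤ R) := by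
      intro S hS
      rw [mem_filter] at hS ⊢
      exact ⟨hS.1, hS.2.1⟩
    have h2 := (card_le_card h1).trans (card_small B R)
    have h3 : (B.card + 1) ^ R ≤ (k + 1) ^ R := by gcongr
    exact_mod_cast h2.trans h3
  have hsum : ∑ S ∈ B.powerset.filter (fun S => S.card ≤ R), (-1 : ℝ) ^ S.card * ∏ b ∈ S, P b =
      ∑ S ∈ B.powerset.filter (fun S => S.card ≤ R ∧ I S), (-1 : ℝ) ^ S.card * ∏ b ∈ S, P b +
      ∑ S ∈ B.powerset.filter (fun S => S.card ≤ R ∧ ¬ I S),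
        (-1 : ℝ) ^ S.card * ∏ b ∈ S, P b := by
    rw [← filter_filter, ← filter_filter, sum_filter_add_sum_filter_not]
  have hM := hmain G B P W (fun b hb => ⟨(hP b).1, (hqs b hb).trans hqs2⟩) hW R hR
  have hDle : ∑ S ∈ B.powerset.filter (fun S => S.card ≤ R ∧ ¬ I S),
        (-1 : ℝ) ^ S.card * ∏ b ∈ S, P b ≤
      ∑ S ∈ B.powerset.filter (fun S => S.card ≤ R ∧ ¬ I S), ∏ b ∈ S, P b := by
    apply sum_le_sum
    intro S _
    rcases neg_one_pow_eq_or ℝ S.card with h1 | h1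
    · rw [h1, one_mul]
    · rw [h1]
      have := hPnn S
      linarith
  have hD' : ∑ S ∈ B.powerset.filter (fun S => S.card ≤ R ∧ ¬ I S), ∏ b ∈ S, P b ≤
      (R + 1) * W ^ R * (σ * R * qs) := by
    first
    | (have hD := hdsum G B P qs W σ I D R (fun b hb => ⟨(hP b).1, hqs b hb⟩) hW hW1
        (by linarith) (fun F hF => ⟨hDB F, hDc F hF⟩) (by
          intro S hS hn
          obtain ⟨x, hx, hx2⟩ := hInot S hS hn
          exact ⟨x, hx, by convert hx2⟩)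
       convert hD)
    | (have hD := hdsum G B P qs W σ I D R (fun b hb => ⟨(hP b).1, hqs b hb⟩) hW hW1
        (by linarith) hqs0.le (fun F hF => ⟨hDB F, hDc F hF⟩) (by
          intro S hS hn
          obtain ⟨x, hx, hx2⟩ := hInot S hS hn
          exact ⟨x, hx, by convert hx2⟩)
       convert hD)
  have hM' : Real.exp (-2 * W) - W ^ (R + 1) / (R + 1).factorial ≤
      ∑ S ∈ B.powerset.filter (fun S => S.card ≤ R), (-1 : ℝ) ^ S.card * ∏ b ∈ S, P b := by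
    convert hM
  linarith

theorem numeric (R k h : ℕ) (W σ qs D2 η Z er : ℝ) (hR : 1 ≤ R) (hh : 1 ≤ h) (hW1 : 1 ≤ W)
    (hσ : 1 ≤ σ) (hqs0 : 0 < qs) (hqs2 : qs ≤ 1 / 2) (hη : 0 ≤ η) (hD2 : 0 ≤ D2) (hZ0 : 0 ≤ Z)
    (hZ : Z ≤ (2 * R : ℕ) * W ^ (2 * R)) (her : er = (2 * h + 1) * η) :
    ((k : ℝ) + 1) ^ R * (R * er) + (R + 1) * W ^ R * (σ * R * qs) +
      4 ^ R * (Z * (σ * (2 * R) * qs + D2 +
        100 * σ * (2 * R + 1) * W ^ 2 * Real.sqrt (σ * (2 * R + 2) * qs)) +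
      (k + 1) ^ (2 * R) * ((2 * R + 1) * er)) ≤
    (100 * R * W) ^ (10 * R) * (σ ^ 2 * Real.sqrt qs + D2 + (k + 1) ^ (2 * R + 2) * h * η) := by
  have hRr : (1 : ℝ) ≤ R := by exact_mod_cast hR
  have hhr : (1 : ℝ) ≤ h := by exact_mod_cast hh
  have hk1 : (1 : ℝ) ≤ (k : ℝ) + 1 := by
    have : (0 : ℝ) ≤ k := Nat.cast_nonneg k
    linarith
  set Q : ℝ := 4 ^ R * R ^ 3 * W ^ (2 * R + 2) with hQ
  have hQ0 : 0 < Q := by positivity
  have hU : 10 ^ 6 * Q ≤ (100 * R * W) ^ (10 * R) := by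
    rw [mul_pow, mul_pow, hQ]
    have h1 : (10 : ℝ) ^ 6 * 4 ^ R ≤ 100 ^ (10 * R) := by
      rw [pow_mul]
      have e : ((100 : ℝ) ^ 10) = 4 * (25 * 10 ^ 18) := by norm_num
      rw [e, mul_pow]
      have h2 : (10 : ℝ) ^ 6 ≤ (25 * 10 ^ 18) ^ R := by
        calc (10 : ℝ) ^ 6 ≤ (25 * 10 ^ 18) ^ 1 := by norm_num
          _ ≤ (25 * 10 ^ 18) ^ R := pow_le_pow_right₀ (by norm_num) hR
      have h3 := mul_le_mul_of_nonneg_left h2 (by positivity : (0 : ℝ) ≤ 4 ^ R)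
      linarith
    have h2 : (R : ℝ) ^ 3 ≤ R ^ (10 * R) := pow_le_pow_right₀ hRr (by omega)
    have h3 : W ^ (2 * R + 2) ≤ W ^ (10 * R) := pow_le_pow_right₀ hW1 (by omega)
    calc (10 : ℝ) ^ 6 * (4 ^ R * R ^ 3 * W ^ (2 * R + 2))
        = (10 ^ 6 * 4 ^ R) * R ^ 3 * W ^ (2 * R + 2) := by ring
      _ ≤ 100 ^ (10 * R) * R ^ (10 * R) * W ^ (10 * R) := by gcongr
  set s := Real.sqrt qs with hs
  have hs0 : 0 < s := Real.sqrt_pos.mpr hqs0
  have hs1 : s ≤ 1 := by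
    rw [hs]
    exact Real.sqrt_le_one.mpr (by linarith)
  have hqss : qs = s ^ 2 := (Real.sq_sqrt hqs0.le).symm
  have hqs1 : qs ≤ s := by
    rw [hqss]; nlinarith
  have hσ2 : σ ≤ σ ^ 2 := by nlinarith
  have hσ0 : 0 ≤ σ := by linarith
  -- powers of W
  have hWR : W ^ R ≤ W ^ (2 * R + 2) := pow_le_pow_right₀ hW1 (by omega)
  have hW2R : W ^ (2 * R) ≤ W ^ (2 * R + 2) := pow_le_pow_right₀ hW1 (by omega)
  have h4R : (1 : ℝ) ≤ 4 ^ R := one_le_pow₀ (by norm_num)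
  have hR3 : (R : ℝ) ^ 2 ≤ R ^ 3 := pow_le_pow_right₀ hRr (by omega)
  have hR3' : (R : ℝ) ≤ R ^ 3 := by
    calc (R : ℝ) = R ^ 1 := (pow_one _).symm
      _ ≤ R ^ 3 := pow_le_pow_right₀ hRr (by omega)
  have hWpos : 0 < W ^ (2 * R + 2) := by positivity
  -- the three coefficients
  have q1 : (R : ℝ) ^ 2 * W ^ R ≤ Q := by
    calc (R : ℝ) ^ 2 * W ^ R ≤ R ^ 3 * W ^ (2 * R + 2) := by gcongr
      _ = 1 * (R ^ 3 * W ^ (2 * R + 2)) := (one_mul _).symm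
      _ ≤ 4 ^ R * (R ^ 3 * W ^ (2 * R + 2)) := by gcongr
      _ = Q := by rw [hQ]; ring
  have q2 : 4 ^ R * ((R : ℝ) * W ^ (2 * R)) ≤ Q := by
    calc 4 ^ R * ((R : ℝ) * W ^ (2 * R)) ≤ 4 ^ R * (R ^ 3 * W ^ (2 * R + 2)) := by gcongr
      _ = Q := by rw [hQ]; ring
  have q3 : 4 ^ R * ((R : ℝ) ^ 2 * W ^ (2 * R)) ≤ Q := by
    calc 4 ^ R * ((R : ℝ) ^ 2 * W ^ (2 * R)) ≤ 4 ^ R * (R ^ 3 * W ^ (2 * R + 2)) := by gcongr
      _ = Q := by rw [hQ]; ring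
  have q4 : 4 ^ R * (R : ℝ) ≤ Q := by
    calc 4 ^ R * (R : ℝ) ≤ 4 ^ R * (R ^ 3 * W ^ (2 * R + 2)) := by
          have : (R : ℝ) * 1 ≤ R ^ 3 * W ^ (2 * R + 2) := by
            apply mul_le_mul hR3' (one_le_pow₀ hW1) (by norm_num) (by positivity)
          rw [mul_one] at this
          gcongr
      _ = Q := by rw [hQ]; ring
  have hZ' : Z ≤ 2 * (R * W ^ (2 * R)) := by
    refine hZ.trans (le_of_eq ?_)
    push_cast
    ring
  -- square root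
  have hsq : Real.sqrt (σ * (2 * R + 2) * qs) ≤ σ * (4 * R) * s := by
    rw [Real.sqrt_mul (by positivity), ← hs]
    apply mul_le_mul_of_nonneg_right _ hs0.le
    have h1 : 1 ≤ σ * (2 * (R : ℝ) + 2) := by nlinarith
    calc Real.sqrt (σ * (2 * R + 2)) ≤ σ * (2 * R + 2) := by
          rw [Real.sqrt_le_left (by linarith)]
          nlinarith
      _ ≤ σ * (4 * R) := by
          apply mul_le_mul_of_nonneg_left _ hσ0
          linarith
  -- pieces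
  have p1 : (R + 1) * W ^ R * (σ * R * qs) ≤ 2 * Q * (σ ^ 2 * s) := by
    calc (R + 1) * W ^ R * (σ * R * qs) ≤ (2 * R) * W ^ R * (σ ^ 2 * R * s) := by
          gcongr
          linarith
      _ = 2 * (R ^ 2 * W ^ R) * (σ ^ 2 * s) := by ring
      _ ≤ 2 * Q * (σ ^ 2 * s) := by gcongr
  have p2 : 4 ^ R * (Z * (σ * (2 * R) * qs)) ≤ 4 * Q * (σ ^ 2 * s) := by
    calc 4 ^ R * (Z * (σ * (2 * R) * qs)) ≤ 4 ^ R * ((2 * (R * W ^ (2 * R))) *
          (σ ^ 2 * (2 * R) * s)) := by gcongr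
      _ = 4 * (4 ^ R * (R ^ 2 * W ^ (2 * R))) * (σ ^ 2 * s) := by ring
      _ ≤ 4 * Q * (σ ^ 2 * s) := by gcongr
  have p3 : 4 ^ R * (Z * D2) ≤ 2 * Q * D2 := by
    calc 4 ^ R * (Z * D2) ≤ 4 ^ R * ((2 * (R * W ^ (2 * R))) * D2) := by gcongr
      _ = 2 * (4 ^ R * (R * W ^ (2 * R))) * D2 := by ring
      _ ≤ 2 * Q * D2 := by gcongr
  have p4 : 4 ^ R * (Z * (100 * σ * (2 * R + 1) * W ^ 2 * Real.sqrt (σ * (2 * R + 2) * qs))) ≤
      2400 * Q * (σ ^ 2 * s) := by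
    calc 4 ^ R * (Z * (100 * σ * (2 * R + 1) * W ^ 2 * Real.sqrt (σ * (2 * R + 2) * qs)))
        ≤ 4 ^ R * ((2 * (R * W ^ (2 * R))) * (100 * σ * (3 * R) * W ^ 2 *
          (σ * (4 * R) * s))) := by
          gcongr
          linarith
      _ = 2400 * (4 ^ R * R ^ 3 * (W ^ (2 * R) * W ^ 2)) * (σ ^ 2 * s) := by ring
      _ = 2400 * Q * (σ ^ 2 * s) := by rw [← pow_add, hQ]
  have her' : er ≤ 3 * (h * η) := by
    rw [her]; nlinarith
  have her0 : 0 ≤ er := by rw [her]; positivity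
  have p5 : ((k : ℝ) + 1) ^ R * (R * er) ≤ 3 * Q * ((k + 1) ^ (2 * R + 2) * h * η) := by
    have hkk : ((k : ℝ) + 1) ^ R ≤ (k + 1) ^ (2 * R + 2) := pow_le_pow_right₀ hk1 (by omega)
    have hRQ : (R : ℝ) ≤ Q := by
      calc (R : ℝ) = 1 * R := (one_mul _).symm
        _ ≤ 4 ^ R * R := by gcongr
        _ ≤ Q := q4
    calc ((k : ℝ) + 1) ^ R * (R * er) ≤ (k + 1) ^ (2 * R + 2) * (Q * (3 * (h * η))) := by gcongr
      _ = _ := by ring
  have p6 : 4 ^ R * (((k : ℝ) + 1) ^ (2 * R) * ((2 * R + 1) * er)) ≤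
      9 * Q * ((k + 1) ^ (2 * R + 2) * h * η) := by
    have hkk : ((k : ℝ) + 1) ^ (2 * R) ≤ (k + 1) ^ (2 * R + 2) := pow_le_pow_right₀ hk1 (by omega)
    calc 4 ^ R * (((k : ℝ) + 1) ^ (2 * R) * ((2 * R + 1) * er))
        ≤ 4 ^ R * ((k + 1) ^ (2 * R + 2) * ((3 * R) * (3 * (h * η)))) := by
          gcongr
          linarith
      _ = 9 * (4 ^ R * R) * ((k + 1) ^ (2 * R + 2) * h * η) := by ring
      _ ≤ _ := by gcongr
  have g1 : 0 ≤ σ ^ 2 * s := by positivity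
  have g2 : 0 ≤ ((k : ℝ) + 1) ^ (2 * R + 2) * h * η := by positivity
  have hfin := mul_le_mul_of_nonneg_right hU
    (by positivity : 0 ≤ σ ^ 2 * s + D2 + ((k : ℝ) + 1) ^ (2 * R + 2) * h * η)
  refine le_trans ?_ hfin
  have r1 : 0 ≤ Q * (σ ^ 2 * s) := by positivity
  have r2 : 0 ≤ Q * D2 := by positivity
  have r3 : 0 ≤ Q * (((k : ℝ) + 1) ^ (2 * R + 2) * h * η) := by positivity
  have e0 : 10 ^ 6 * Q * (σ ^ 2 * s + D2 + ((k : ℝ) + 1) ^ (2 * R + 2) * h * η) =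
      10 ^ 6 * (Q * (σ ^ 2 * s)) + 10 ^ 6 * (Q * D2) +
        10 ^ 6 * (Q * (((k : ℝ) + 1) ^ (2 * R + 2) * h * η)) := by ring
  have e1 : 4 ^ R * (Z * (σ * (2 * R) * qs + D2 +
        100 * σ * (2 * R + 1) * W ^ 2 * Real.sqrt (σ * (2 * R + 2) * qs)) +
      (k + 1) ^ (2 * R) * ((2 * R + 1) * er)) =
      4 ^ R * (Z * (σ * (2 * R) * qs)) + 4 ^ R * (Z * D2) +
      4 ^ R * (Z * (100 * σ * (2 * R + 1) * W ^ 2 * Real.sqrt (σ * (2 * R + 2) * qs))) +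
      4 ^ R * (((k : ℝ) + 1) ^ (2 * R) * ((2 * R + 1) * er)) := by ring
  rw [e0, e1]
  linarith

end Pool.Agent.W34.LG
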